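import Pool.Agent.Y667.RZ.Stm
import Pool.Agent.Y667.RP.Sel

/-!
# Project RZ: the Selmer groups of the curve and of its twist by 17
-/

set_option autoImplicit false

namespace Pool.Agent.Y535.RZ

open Finset Pool.Agent.W262.RK Pool.Agent.W307.RT Pool.Agent.W307.RS Pool.Agent.W307.SE
  Pool.Agent.W307.FK Pool.Agent.W214.RK2 Pool.Agent.Y667.RP Pool.Agent.Y667.RZ

open Pool.Agent.W405.SE (even_val not_dvd goodp_of)

/-- the data of the twist by `D` -/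
structure Dat (s : Fin 3 → ℕ) (D : ℕ) : Prop where
  sq : Squarefree (∏ j, s j)
  odd : Odd (∏ j, s j)
  co : (∏ j, s j).Coprime D
  dif : (s 0 : ℤ) - s 1 = 32 * s 2
  D0 : 0 < D

section

variable {s : Fin 3 → ℕ} {D : ℕ} (h : Dat s D)
include h

omit h in
lemma Dat.P3 (_h : Dat s D) : ∏ j, s j = s 0 * s 1 * s 2 := by rw [Fin.prod_univ_three]

omit h in
lemma cop_nd {x y p : ℕ} (hp : p.Prime) (hxy : x.Coprime y) (hx : p ∣ x) : ¬ p ∣ y := by
  intro hy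
  have := Nat.dvd_gcd hx hy
  rw [hxy] at this
  exact hp.one_lt.ne' (Nat.dvd_one.1 this)

omit h in
lemma nsq {x p : ℕ} (hp : p.Prime) (hx : Squarefree x) : ¬ p ^ 2 ∣ x := by
  intro h
  rw [_root_.sq] at h
  exact hp.one_lt.ne' (Nat.isUnit_iff.1 (hx p h))

omit h in
lemma Dat.sj_dvd (_h : Dat s D) (j : Fin 3) : s j ∣ ∏ j, s j := Finset.dvd_prod_of_mem _ (Finset.mem_univ j)

lemma Dat.hD {p : ℕ} (hp : p.Prime) {j : Fin 3} (hj : p ∣ s j) : ¬ p ∣ D :=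
  cop_nd hp h.co (hj.trans (h.sj_dvd j))

lemma Dat.ne2 {p : ℕ} {j : Fin 3} (hj : p ∣ s j) : p ≠ 2 := by
  rintro rfl
  exact (Nat.not_even_iff_odd.2 h.odd) (even_iff_two_dvd.2 (hj.trans (h.sj_dvd j)))

lemma Dat.cop01 : (s 0).Coprime (s 1) := by
  have := h.sq
  rw [h.P3] at this
  exact Nat.coprime_of_squarefree_mul (this.squarefree_of_dvd (dvd_mul_right _ _))

lemma Dat.cop012 : (s 0 * s 1).Coprime (s 2) := by
  have := h.sq
  rw [h.P3] at this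
  exact Nat.coprime_of_squarefree_mul this

lemma Dat.sqj (j : Fin 3) : Squarefree (s j) := h.sq.squarefree_of_dvd (h.sj_dvd j)

lemma Dat.pos (j : Fin 3) : 0 < s j := Nat.pos_of_ne_zero (h.sqj j).ne_zero

omit h in
lemma dvd_D {D x p : ℕ} (hp : p.Prime) (hD : ¬ p ∣ D) :
    (p : ℤ) ∣ (D : ℤ) * (x : ℤ) ↔ p ∣ x := by
  have h1 : ((D : ℤ) * (x : ℤ)) = ((D * x : ℕ) : ℤ) := by push_cast; ring
  rw [h1, Int.natCast_dvd_natCast, hp.dvd_mul]
  exact or_iff_right hD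

omit h in
lemma nsq_D {D x p : ℕ} (hp : p.Prime) (hD : ¬ p ∣ D) (hx : Squarefree x) :
    ¬ (p : ℤ) ^ 2 ∣ (D : ℤ) * (x : ℤ) := by
  intro h
  have h1 : p ^ 2 ∣ D * x := by exact_mod_cast h
  have h2 : (p ^ 2).Coprime D := Nat.Coprime.pow_left 2 ((Nat.Prime.coprime_iff_not_dvd hp).2 hD)
  exact nsq hp hx (h2.dvd_of_dvd_mul_left h1)

lemma Dat.dif' : (D : ℤ) * (s 0 : ℤ) - (D : ℤ) * (s 1 : ℤ) = 32 * ((D : ℤ) * (s 2 : ℤ)) := by
  rw [← mul_sub, h.dif]; ring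

lemma Dat.dvdC {p : ℕ} (hp : p.Prime) (hp2 : p ≠ 2) (hD : ¬ p ∣ D) :
    (p : ℤ) ∣ (D : ℤ) * (s 0 : ℤ) - (D : ℤ) * (s 1 : ℤ) ↔ p ∣ s 2 := by
  rw [h.dif']
  constructor
  · intro h
    rcases (Nat.prime_iff_prime_int.1 hp).dvd_or_dvd h with h | h
    · exfalso
      have h1 : p ∣ 2 ^ 5 := by exact_mod_cast h
      exact hp2 ((Nat.prime_dvd_prime_iff_eq hp Nat.prime_two).1 (hp.dvd_of_dvd_pow h1))
    · exact (dvd_D hp hD).1 h
  · intro h
    exact ((dvd_D hp hD).2 h).mul_left _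

lemma Dat.loc0 {d : ℤ × ℤ} (hd : d ∈ Sel ((D : ℤ) * s 0) ((D : ℤ) * s 1)) {p : ℕ}
    (hp : p.Prime) (hpA : p ∣ s 0) :
    LR 0 (sg0 p (-((D : ℤ) * s 1))) (dv p d.1) (dv p d.2) (sgn p d.1) (sgn p d.2) := by
  have hD := h.hD hp hpA
  have h1 : ¬ p ∣ s 1 := cop_nd hp h.cop01 hpA
  have h2 : ¬ (p : ℤ) ∣ -((D : ℤ) * s 1) := by rw [dvd_neg, dvd_D hp hD]; exact h1
  refine locLR 0 _ p hp (h.ne2 hpA) h2 ?_ hd
  unfold LocH
  rw [if_pos (by rfl)]
  exact ⟨(dvd_D hp hD).2 hpA, nsq_D hp hD (h.sqj 0), fun h => h1 ((dvd_D hp hD).1 h),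
    jac_self hp h2⟩

lemma Dat.loc1 {d : ℤ × ℤ} (hd : d ∈ Sel ((D : ℤ) * s 0) ((D : ℤ) * s 1)) {p : ℕ}
    (hp : p.Prime) (hpB : p ∣ s 1) :
    LR 1 (sg0 p (-((D : ℤ) * s 0))) (dv p d.1) (dv p d.2) (sgn p d.1) (sgn p d.2) := by
  have hD := h.hD hp hpB
  have h1 : ¬ p ∣ s 0 := cop_nd hp h.cop01.symm hpB
  have h2 : ¬ (p : ℤ) ∣ -((D : ℤ) * s 0) := by rw [dvd_neg, dvd_D hp hD]; exact h1
  refine locLR 1 _ p hp (h.ne2 hpB) h2 ?_ hd
  unfold LocH
  rw [if_neg (by decide), if_pos (by rfl)]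
  exact ⟨(dvd_D hp hD).2 hpB, nsq_D hp hD (h.sqj 1), fun h => h1 ((dvd_D hp hD).1 h),
    jac_self hp h2⟩

lemma Dat.loc2 {d : ℤ × ℤ} (hd : d ∈ Sel ((D : ℤ) * s 0) ((D : ℤ) * s 1)) {p : ℕ}
    (hp : p.Prime) (hpC : p ∣ s 2) :
    LR 2 (sg0 p ((D : ℤ) * s 0)) (dv p d.1) (dv p d.2) (sgn p d.1) (sgn p d.2) := by
  have hD := h.hD hp hpC
  have hp2 := h.ne2 hpC
  have h1 : ¬ p ∣ s 0 := fun h' => cop_nd hp h.cop012.symm hpC (h'.mul_right _)
  have h2 : ¬ (p : ℤ) ∣ (D : ℤ) * s 0 := by rw [dvd_D hp hD]; exact h1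
  refine locLR 2 _ p hp hp2 h2 ?_ hd
  unfold LocH
  rw [if_neg (by decide), if_neg (by decide), if_pos (by rfl)]
  refine ⟨(h.dvdC hp hp2 hD).2 hpC, ?_, h2, jac_self hp h2⟩
  intro h'
  rw [h.dif'] at h'
  have h3 : p ^ 2 ∣ 32 * (D * s 2) := by exact_mod_cast h'
  have h4 : (p ^ 2).Coprime 32 := by
    have : p.Coprime 2 := (Nat.coprime_primes hp Nat.prime_two).2 hp2
    have h5 : (p ^ 2).Coprime (2 ^ 5) := Nat.Coprime.pow 2 5 this
    exact h5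
  have h5 : (p ^ 2).Coprime D :=
    Nat.Coprime.pow_left 2 ((Nat.Prime.coprime_iff_not_dvd hp).2 hD)
  exact nsq hp (h.sqj 2) (h5.dvd_of_dvd_mul_left (h4.dvd_of_dvd_mul_left h3))

lemma Dat.good {d : ℤ × ℤ} (hd : d ∈ Sel ((D : ℤ) * s 0) ((D : ℤ) * s 1)) {q : ℕ}
    (hq : q.Prime) (hq2 : q ≠ 2) (hdq : (q : ℤ) ∣ d.1 ∨ (q : ℤ) ∣ d.2) : q ∣ D * ∏ j, s j := by
  by_contra hcon
  have hD : ¬ q ∣ D := fun h' => hcon (h'.mul_right _)
  have hj : ∀ j, ¬ q ∣ s j := fun j h' => hcon ((h'.trans (h.sj_dvd j)).mul_left _)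
  have : Fact q.Prime := ⟨hq⟩
  have hqi := Nat.prime_iff_prime_int.1 hq
  have h1 : ¬ (q : ℤ) ∣ 2 * ((D : ℤ) * s 0) * ((D : ℤ) * s 1) *
      ((D : ℤ) * s 0 - (D : ℤ) * s 1) := by
    intro h'
    rcases hqi.dvd_or_dvd h' with h' | h'
    · rcases hqi.dvd_or_dvd h' with h' | h'
      · rcases hqi.dvd_or_dvd h' with h' | h'
        · have : q ∣ 2 := by exact_mod_cast h'
          exact hq2 ((Nat.prime_dvd_prime_iff_eq hq Nat.prime_two).1 this)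
        · exact hj 0 ((dvd_D hq hD).1 h')
      · exact hj 1 ((dvd_D hq hD).1 h')
    · exact hj 2 ((h.dvdC hq hq2 hD).1 h')
  have h2 := goodp_of Pool.Agent.W407.SE.ratp q _ _ d.1 d.2 h1 hd.1 hd.2.1 (hd.2.2.2 q)
  rcases hdq with h' | h'
  · exact h2.1 h'
  · exact h2.2 h'

/-- the general inclusion -/
lemma Dat.incl (hD8 : D % 8 = 1) (h0 : s 0 % 8 = 1) (L : ℕ → Bool → Bool → Bool → Bool → Prop)
    (hL : ∀ d ∈ Sel ((D : ℤ) * s 0) ((D : ℤ) * s 1), ∀ p ∈ (D * ∏ j, s j).primeFactors,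
      L p (dv p d.1) (dv p d.2) (sgn p d.1) (sgn p d.2)) :
    Sel ((D : ℤ) * s 0) ((D : ℤ) * s 1) ⊆ VG (D * ∏ j, s j) L := by
  intro d hd
  have hA : (0 : ℤ) < (D : ℤ) * s 0 := by
    have := h.D0
    have := h.pos 0
    positivity
  have hB : (0 : ℤ) < (D : ℤ) * s 1 := by
    have := h.D0
    have := h.pos 1
    positivity
  have h8 : d.1 % 8 = 1 := by
    refine sel_two (a := (D : ℤ) * s 0) (b := (D : ℤ) * s 1) ?_ ?_ hd
    · have : ((D * s 0 : ℕ) : ℤ) % 8 = 1 := by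
        have : (D * s 0) % 8 = 1 := by rw [Nat.mul_mod, hD8, h0]
        omega
      rw [← this]
      push_cast
      rfl
    · rw [h.dif']
      exact dvd_mul_right _ _
  refine ⟨hd.1, hd.2.1, sel_pos hA hB hd, h8, fun q hq hqd => ?_, fun q hq hqd => ?_, hL d hd⟩
  · refine h.good hd hq ?_ (Or.inl hqd)
    rintro rfl
    have : (2 : ℤ) ∣ d.1 := by exact_mod_cast hqd
    omega
  · by_cases hq2 : q = 2
    · rw [hq2]; exact dvd_mul_right _ _
    · exact (h.good hd hq hq2 (Or.inr hqd)).mul_left _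

lemma Dat.lf {d : ℤ × ℤ} (hd : d ∈ Sel ((D : ℤ) * s 0) ((D : ℤ) * s 1)) (E : Finset ℕ) {p : ℕ}
    (hp : p.Prime)
    (hE0 : p ∣ s 0 → (p ∈ E ↔ jacobiSym (-((D : ℤ) * s 1)) p = -1))
    (hE1 : p ∣ s 1 → (p ∈ E ↔ jacobiSym (-((D : ℤ) * s 0)) p = -1))
    (hE2 : p ∣ s 2 → (p ∈ E ↔ jacobiSym ((D : ℤ) * s 0) p = -1)) :
    LF s E p (dv p d.1) (dv p d.2) (sgn p d.1) (sgn p d.2) := by
  intro j hj
  have hj3 : j = 0 ∨ j = 1 ∨ j = 2 := by fin_cases j <;> simp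
  rcases hj3 with rfl | rfl | rfl
  · have : decide (p ∈ E) = sg0 p (-((D : ℤ) * s 1)) := by
      unfold sg0
      rw [decide_eq_decide]
      exact hE0 hj
    rw [this]
    exact h.loc0 hd hp hj
  · have : decide (p ∈ E) = sg0 p (-((D : ℤ) * s 0)) := by
      unfold sg0
      rw [decide_eq_decide]
      exact hE1 hj
    rw [this]
    exact h.loc1 hd hp hj
  · have : decide (p ∈ E) = sg0 p ((D : ℤ) * s 0) := by
      unfold sg0
      rw [decide_eq_decide]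
      exact hE2 hj
    rw [this]
    exact h.loc2 hd hp hj

/-- membership in the set of the negative signs -/
lemma Dat.memE {p : ℕ} (hp : p.Prime) (hpP : p ∣ ∏ j, s j) :
    (p ∣ s 0 → (p ∈ sgF (s 0) (s 1) (∏ j, s j) ↔ jacobiSym (-(s 1 : ℤ)) p = -1)) ∧
    (p ∣ s 1 → (p ∈ sgF (s 0) (s 1) (∏ j, s j) ↔ jacobiSym (-(s 0 : ℤ)) p = -1)) ∧
    (p ∣ s 2 → (p ∈ sgF (s 0) (s 1) (∏ j, s j) ↔ jacobiSym (s 0 : ℤ) p = -1)) := by
  have hP0 : ∏ j, s j ≠ 0 := h.sq.ne_zero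
  have hpf : p ∈ (∏ j, s j).primeFactors := Nat.mem_primeFactors.2 ⟨hp, hpP, hP0⟩
  have h1D : ¬ p ∣ 1 := fun h' => hp.one_lt.ne' (Nat.dvd_one.1 h')
  have hdC : p ≠ 2 → ((p : ℤ) ∣ (s 0 : ℤ) - s 1 ↔ p ∣ s 2) := by
    intro hp2
    rw [h.dif]
    constructor
    · intro h
      rcases (Nat.prime_iff_prime_int.1 hp).dvd_or_dvd h with h | h
      · exfalso
        have h1 : p ∣ 2 ^ 5 := by exact_mod_cast h
        exact hp2 ((Nat.prime_dvd_prime_iff_eq hp Nat.prime_two).1 (hp.dvd_of_dvd_pow h1))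
      · exact Int.natCast_dvd_natCast.1 h
    · intro h
      exact (Int.natCast_dvd_natCast.2 h).mul_left _
  unfold sgF
  refine ⟨fun hpA => ?_, fun hpB => ?_, fun hpC => ?_⟩
  · have h1 : ¬ p ∣ s 1 := cop_nd hp h.cop01 hpA
    have h2 : ¬ p ∣ s 2 := cop_nd hp h.cop012 (hpA.mul_right _)
    rw [mem_filter]
    constructor
    · rintro ⟨-, h' | h' | h'⟩
      · exact h'.2
      · exact absurd (Int.natCast_dvd_natCast.1 h'.1) h1
      · exact absurd ((hdC (h.ne2 hpA)).1 h'.1) h2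
    · intro h'
      exact ⟨hpf, Or.inl ⟨Int.natCast_dvd_natCast.2 hpA, h'⟩⟩
  · have h1 : ¬ p ∣ s 0 := cop_nd hp h.cop01.symm hpB
    have h2 : ¬ p ∣ s 2 := cop_nd hp h.cop012 (hpB.mul_left _)
    rw [mem_filter]
    constructor
    · rintro ⟨-, h' | h' | h'⟩
      · exact absurd (Int.natCast_dvd_natCast.1 h'.1) h1
      · exact h'.2
      · exact absurd ((hdC (h.ne2 hpB)).1 h'.1) h2
    · intro h'
      exact ⟨hpf, Or.inr (Or.inl ⟨Int.natCast_dvd_natCast.2 hpB, h'⟩)⟩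
  · have h1 : ¬ p ∣ s 0 := fun h' => cop_nd hp h.cop012.symm hpC (h'.mul_right _)
    have h2 : ¬ p ∣ s 1 := fun h' => cop_nd hp h.cop012.symm hpC (h'.mul_left _)
    rw [mem_filter]
    constructor
    · rintro ⟨-, h' | h' | h'⟩
      · exact absurd (Int.natCast_dvd_natCast.1 h'.1) h1
      · exact absurd (Int.natCast_dvd_natCast.1 h'.1) h2
      · exact h'.2
    · intro h'
      exact ⟨hpf, Or.inr (Or.inr ⟨(hdC (h.ne2 hpC)).2 hpC, h'⟩)⟩

end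

lemma jac_tw {p : ℕ} (hp : p.Prime) (h17 : p ≠ 17) {x : ℤ} (hx : ¬ (p : ℤ) ∣ x) :
    (jacobiSym (17 * x) p = -1 ↔ ¬ (jacobiSym x p = -1 ↔ jacobiSym 17 p = -1)) := by
  have hval : ∀ y : ℤ, ¬ (p : ℤ) ∣ y → jacobiSym y p = 1 ∨ jacobiSym y p = -1 := by
    intro y hy
    apply jacobiSym.eq_one_or_neg_one
    rw [Int.gcd_comm, ← Int.isCoprime_iff_gcd_eq_one]
    exact ((Nat.prime_iff_prime_int.1 hp).coprime_iff_not_dvd).2 hy
  have h17' : ¬ (p : ℤ) ∣ 17 := by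
    intro h
    have h1 : p ∣ 17 := by exact_mod_cast h
    exact h17 ((Nat.prime_dvd_prime_iff_eq hp (by norm_num)).1 h1)
  rw [jacobiSym.mul_left]
  rcases hval x hx with h1 | h1 <;> rcases hval 17 h17' with h2 | h2 <;> rw [h1, h2] <;> norm_num

lemma ll17 (v w h g : Bool)
    (hLL : h = xor (v && false) (xor (v && !w && sg0 17 ((![1, 1, 3] : Fin 3 → ℤ) 0))
      (xor (!v && w && sg0 17 ((![1, 1, 3] : Fin 3 → ℤ) 0 * (![1, 1, 3] : Fin 3 → ℤ) 1))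
      (v && w && sg0 17 ((![1, 1, 3] : Fin 3 → ℤ) 1)))) ∧
    g = xor (w && false) (xor (v && !w && sg0 17 ((![1, 1, 3] : Fin 3 → ℤ) 0 *
      (![1, 1, 3] : Fin 3 → ℤ) 2)) (xor (!v && w && sg0 17 (-(![1, 1, 3] : Fin 3 → ℤ) 0))
      (v && w && sg0 17 (-(![1, 1, 3] : Fin 3 → ℤ) 2))))) : h = false ∧ g = v := by
  have e1 : sg0 17 ((![1, 1, 3] : Fin 3 → ℤ) 0) = false := by
    unfold sg0
    rw [decide_eq_false_iff_not]
    show ¬ jacobiSym 1 17 = -1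
    norm_num
  have e2 : sg0 17 ((![1, 1, 3] : Fin 3 → ℤ) 0 * (![1, 1, 3] : Fin 3 → ℤ) 1) = false := by
    unfold sg0
    rw [decide_eq_false_iff_not]
    show ¬ jacobiSym (1 * 1) 17 = -1
    norm_num
  have e3 : sg0 17 ((![1, 1, 3] : Fin 3 → ℤ) 1) = false := by
    unfold sg0
    rw [decide_eq_false_iff_not]
    show ¬ jacobiSym 1 17 = -1
    norm_num
  have e4 : sg0 17 ((![1, 1, 3] : Fin 3 → ℤ) 0 * (![1, 1, 3] : Fin 3 → ℤ) 2) = true := by
    unfold sg0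
    rw [decide_eq_true_iff]
    show jacobiSym (1 * 3) 17 = -1
    norm_num
  have e5 : sg0 17 (-(![1, 1, 3] : Fin 3 → ℤ) 0) = false := by
    unfold sg0
    rw [decide_eq_false_iff_not]
    show ¬ jacobiSym (-1) 17 = -1
    norm_num
  have e6 : sg0 17 (-(![1, 1, 3] : Fin 3 → ℤ) 2) = true := by
    unfold sg0
    rw [decide_eq_true_iff]
    show jacobiSym (-3) 17 = -1
    norm_num
  rw [e1, e2, e3, e4, e5, e6] at hLL
  revert hLL
  cases v <;> cases w <;> cases h <;> cases g <;> simp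

lemma loch17 (x y : ℕ) (hx : x % 17 = 1) (hy : y % 17 = 15) (hx0 : ¬ 17 ∣ x) (hy0 : ¬ 17 ∣ y) :
    (((17 : ℕ) : ℤ) ∣ ((17 : ℕ) : ℤ) * (x : ℤ) ∧ ((17 : ℕ) : ℤ) ∣ ((17 : ℕ) : ℤ) * (y : ℤ) ∧
      ¬ ((17 : ℕ) : ℤ) ^ 2 ∣ ((17 : ℕ) : ℤ) * (x : ℤ) ∧
      ¬ ((17 : ℕ) : ℤ) ^ 2 ∣ ((17 : ℕ) : ℤ) * (y : ℤ) ∧
      ¬ ((17 : ℕ) : ℤ) ^ 2 ∣ ((17 : ℕ) : ℤ) * (x : ℤ) - ((17 : ℕ) : ℤ) * (y : ℤ) ∧
      jacobiSym ((![1, 1, 3] : Fin 3 → ℤ) 0 * (((17 : ℕ) : ℤ) * (x : ℤ) / ((17 : ℕ) : ℤ))) 17 =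
        (if false = true then -1 else 1) ∧
      jacobiSym ((![1, 1, 3] : Fin 3 → ℤ) 1 * (((17 : ℕ) : ℤ) * (y : ℤ) / ((17 : ℕ) : ℤ))) 17 =
        (if false = true then -1 else 1) ∧
      jacobiSym ((![1, 1, 3] : Fin 3 → ℤ) 2 * ((((17 : ℕ) : ℤ) * (x : ℤ) -
        ((17 : ℕ) : ℤ) * (y : ℤ)) / ((17 : ℕ) : ℤ))) 17 = (if false = true then -1 else 1)) := by
  have e0 : ((17 : ℕ) : ℤ) ≠ 0 := by norm_num
  rw [← mul_sub, Int.mul_ediv_cancel_left _ e0, Int.mul_ediv_cancel_left _ e0,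
    Int.mul_ediv_cancel_left _ e0]
  refine ⟨dvd_mul_right _ _, dvd_mul_right _ _, ?_, ?_, ?_, ?_, ?_, ?_⟩
  · push_cast; omega
  · push_cast; omega
  · push_cast; omega
  · show jacobiSym (1 * (x : ℤ)) 17 = _
    have : jacobiSym (1 * (x : ℤ)) 17 = jacobiSym 1 17 := by
      rw [jacobiSym.mod_left, jacobiSym.mod_left 1]
      congr 1
      push_cast
      omega
    rw [this]
    norm_num
  · show jacobiSym (1 * (y : ℤ)) 17 = _
    have : jacobiSym (1 * (y : ℤ)) 17 = jacobiSym 15 17 := by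
      rw [jacobiSym.mod_left, jacobiSym.mod_left 15]
      congr 1
      push_cast
      omega
    rw [this]
    norm_num
  · show jacobiSym (3 * ((x : ℤ) - y)) 17 = _
    have : jacobiSym (3 * ((x : ℤ) - y)) 17 = jacobiSym 9 17 := by
      rw [jacobiSym.mod_left, jacobiSym.mod_left 9]
      congr 1
      push_cast
      omega
    rw [this]
    norm_num

theorem SEL17 : St_SEL17 := by
  intro s hs hodd h17 hdif h0 h1 h017 h117
  have hd1 : Dat s 1 := ⟨hs, hodd, Nat.coprime_one_right _, hdif, one_pos⟩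
  have hp17 : Nat.Prime 17 := by norm_num
  have hd17 : Dat s 17 := ⟨hs, hodd, ((Nat.Prime.coprime_iff_not_dvd hp17).2 h17).symm, hdif,
    by norm_num⟩
  constructor
  · have h := hd1.incl (by norm_num) h0 (LF s (sgF (s 0) (s 1) (∏ j, s j))) ?_
    · rw [one_mul, Nat.cast_one, one_mul, one_mul] at h
      exact h
    · intro d hd p hp
      rw [one_mul] at hp
      have hpp := Nat.prime_of_mem_primeFactors hp
      obtain ⟨e0, e1, e2⟩ := hd1.memE hpp (Nat.dvd_of_mem_primeFactors hp)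
      refine hd1.lf hd _ hpp ?_ ?_ ?_
      · intro h; rw [e0 h, Nat.cast_one, one_mul]
      · intro h; rw [e1 h, Nat.cast_one, one_mul]
      · intro h; rw [e2 h, Nat.cast_one, one_mul]
  · have h := hd17.incl (by norm_num) h0 (L17 s (sgF (s 0) (s 1) (∏ j, s j))) ?_
    · exact h
    · intro d hd p hp
      have hpp := Nat.prime_of_mem_primeFactors hp
      by_cases hp17' : p = 17
      · subst hp17'
        unfold L17
        rw [if_pos rfl]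
        have : Fact (Nat.Prime 17) := ⟨hp17⟩
        obtain ⟨k1, k2, -, k3⟩ := hd
        obtain ⟨x, y, hy, hxy, s1, s2⟩ := k3 17
        have hLL := loclp_of Pool.Agent.W407.SE.ratp 3 ![1, 1, 3] false 17 _ _ (by norm_num)
          ?_ ?_ x y hy hxy d.1 d.2 k1 k2 s1 s2
        · unfold LL at hLL
          rw [if_neg (by decide), if_neg (by decide), if_neg (by decide)] at hLL
          exact ll17 _ _ _ _ hLL
        · intro k
          fin_cases k <;> norm_num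
        · unfold LocH
          rw [if_neg (by decide), if_neg (by decide), if_neg (by decide)]
          exact loch17 _ _ h017 h117 (fun h' => h17 (h'.trans (hd17.sj_dvd 0)))
            (fun h' => h17 (h'.trans (hd17.sj_dvd 1)))
      · unfold L17
        rw [if_neg hp17']
        have hpP : p ∣ ∏ j, s j := by
          rcases (hpp.dvd_mul).1 (Nat.dvd_of_mem_primeFactors hp) with h' | h'
          · exact absurd ((Nat.prime_dvd_prime_iff_eq hpp hp17).1 h') hp17'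
          · exact h'
        have hpf : p ∈ (∏ j, s j).primeFactors := Nat.mem_primeFactors.2 ⟨hpp, hpP, hs.ne_zero⟩
        obtain ⟨e0, e1, e2⟩ := hd17.memE hpp hpP
        have htw : p ∈ tw (∏ j, s j) (sgF (s 0) (s 1) (∏ j, s j)) ↔
            ¬ (p ∈ sgF (s 0) (s 1) (∏ j, s j) ↔ jacobiSym 17 p = -1) := by
          unfold tw
          rw [mem_filter]
          exact and_iff_right hpf
        refine hd17.lf hd _ hpp ?_ ?_ ?_
        · intro h'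
          rw [htw, e0 h', ← jac_tw hpp hp17']
          · push_cast
            rw [mul_neg]
          · rw [dvd_neg, Int.natCast_dvd_natCast]
            exact cop_nd hpp hd17.cop01 h'
        · intro h'
          rw [htw, e1 h', ← jac_tw hpp hp17']
          · push_cast
            rw [mul_neg]
          · rw [dvd_neg, Int.natCast_dvd_natCast]
            exact cop_nd hpp hd17.cop01.symm h'
        · intro h'
          rw [htw, e2 h', ← jac_tw hpp hp17']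
          · push_cast
            rfl
          · rw [Int.natCast_dvd_natCast]
            exact fun h'' => cop_nd hpp hd17.cop012.symm h' (h''.mul_right _)

end Pool.Agent.Y535.RZ
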