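import Pool.Agent.Y535.RZ.Pts2

/-!
# Project RZ: the local conditions give the Selmer groups
-/

set_option autoImplicit false

namespace Pool.Agent.Y535.RZ

open Finset Pool.Agent.W262.RK Pool.Agent.W307.RT Pool.Agent.W307.RS Pool.Agent.W307.SE
  Pool.Agent.W307.FK Pool.Agent.W214.RK2 Pool.Agent.Y667.RP Pool.Agent.Y667.RZ

/-- the points at the primes of `∏ s` -/
lemma Dat.pts {s : Fin 3 → ℕ} {D : ℕ} (h : Dat s D) {p : ℕ} [hp : Fact p.Prime] (h7 : 7 ≤ p)
    (hpP : p ∣ ∏ j, s j) {d : ℤ × ℤ} (q1 : Squarefree d.1) (q2 : Squarefree d.2) (E : Finset ℕ)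
    (hLF : LF s E p (dv p d.1) (dv p d.2) (sgn p d.1) (sgn p d.2))
    (hE0 : p ∣ s 0 → (p ∈ E ↔ jacobiSym (-((D : ℤ) * s 1)) p = -1))
    (hE1 : p ∣ s 1 → (p ∈ E ↔ jacobiSym (-((D : ℤ) * s 0)) p = -1))
    (hE2 : p ∣ s 2 → (p ∈ E ↔ jacobiSym ((D : ℤ) * s 0) p = -1)) :
    Loc ℚ_[p] ((D : ℤ) * s 0) ((D : ℤ) * s 1) d.1 d.2 := by
  have hpp := hp.out
  have hc : p ∣ s 0 ∨ p ∣ s 1 ∨ p ∣ s 2 := by
    rw [h.P3] at hpP
    rcases hpp.dvd_mul.1 hpP with h' | h'
    · rcases hpp.dvd_mul.1 h' with h' | h'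
      · exact Or.inl h'
      · exact Or.inr (Or.inl h')
    · exact Or.inr (Or.inr h')
  rcases hc with hj | hj | hj
  · have hD := h.hD hpp hj
    have h1 : ¬ p ∣ s 1 := cop_nd hpp h.cop01 hj
    have hdec : decide (p ∈ E) = sg0 p (-((D : ℤ) * s 1)) := by
      unfold sg0
      rw [decide_eq_decide]
      exact hE0 hj
    have hLR := hLF 0 hj
    rw [hdec] at hLR
    exact pt0 h7 ((dvd_D hpp hD).2 hj) (nsq_D hpp hD (h.sqj 0))
      (fun h' => h1 ((dvd_D hpp hD).1 h')) q1 q2 hLR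
  · have hD := h.hD hpp hj
    have h1 : ¬ p ∣ s 0 := cop_nd hpp h.cop01.symm hj
    have hdec : decide (p ∈ E) = sg0 p (-((D : ℤ) * s 0)) := by
      unfold sg0
      rw [decide_eq_decide]
      exact hE1 hj
    have hLR := hLF 1 hj
    rw [hdec] at hLR
    exact pt1 h7 ((dvd_D hpp hD).2 hj) (nsq_D hpp hD (h.sqj 1))
      (fun h' => h1 ((dvd_D hpp hD).1 h')) q1 hLR
  · have hD := h.hD hpp hj
    have hp2 := h.ne2 hj
    have h1 : ¬ p ∣ s 0 := fun h' => cop_nd hpp h.cop012.symm hj (h'.mul_right _)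
    have hdec : decide (p ∈ E) = sg0 p ((D : ℤ) * s 0) := by
      unfold sg0
      rw [decide_eq_decide]
      exact hE2 hj
    have hLR := hLF 2 hj
    rw [hdec] at hLR
    refine pt2 h7 ((h.dvdC hpp hp2 hD).2 hj) ?_ (fun h' => h1 ((dvd_D hpp hD).1 h')) q2 hLR
    intro h'
    rw [h.dif'] at h'
    have h3 : p ^ 2 ∣ 32 * (D * s 2) := by exact_mod_cast h'
    have h4 : (p ^ 2).Coprime 32 := by
      have : p.Coprime 2 := (Nat.coprime_primes hpp Nat.prime_two).2 hp2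
      have h5 : (p ^ 2).Coprime (2 ^ 5) := Nat.Coprime.pow 2 5 this
      exact h5
    have h5 : (p ^ 2).Coprime D :=
      Nat.Coprime.pow_left 2 ((Nat.Prime.coprime_iff_not_dvd hpp).2 hD)
    exact nsq hpp (h.sqj 2) (h5.dvd_of_dvd_mul_left (h4.dvd_of_dvd_mul_left h3))

/-- the places other than the primes of `∏ s` and `D` -/
lemma Dat.oth (hG : St_GOODS) {s : Fin 3 → ℕ} {D : ℕ} (h : Dat s D) (hD8 : D % 8 = 1)
    (h0 : s 0 % 8 = 1) (h1 : s 1 % 8 = 1) {L : ℕ → Bool → Bool → Bool → Bool → Prop} {d : ℤ × ℤ}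
    (hd : d ∈ VG (D * ∏ j, s j) L) :
    Loc ℝ ((D : ℤ) * s 0) ((D : ℤ) * s 1) d.1 d.2 ∧
      ∀ (p : ℕ) [Fact p.Prime], ¬ p ∣ D * ∏ j, s j →
        Loc ℚ_[p] ((D : ℤ) * s 0) ((D : ℤ) * s 1) d.1 d.2 := by
  obtain ⟨q1, q2, hpos, h8, hf1, hf2, -⟩ := hd
  have hD0 : (0 : ℤ) < D := by exact_mod_cast h.D0
  have hB : (0 : ℤ) < (D : ℤ) * s 1 := by
    have := h.pos 1
    positivity
  have hC0 : (0 : ℤ) < (D : ℤ) * s 2 := by
    have := h.pos 2
    positivity
  have hBA : (D : ℤ) * s 1 < (D : ℤ) * s 0 := by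
    have := h.dif'
    linarith
  refine ⟨pt_real hB hBA hpos q2.ne_zero, ?_⟩
  intro p hp hpM
  have hpp := hp.out
  by_cases hp2 : p = 2
  · subst hp2
    have m8 : ∀ x : ℕ, x % 8 = 1 → ((D : ℤ) * (x : ℤ)) % 8 = 1 := by
      intro x hx
      have : (D * x) % 8 = 1 := by rw [Nat.mul_mod, hD8, hx]
      have h2 : ((D * x : ℕ) : ℤ) % 8 = 1 := by omega
      rw [← h2]
      push_cast
      rfl
    have hodd : ((D : ℤ) * (s 2 : ℤ)) % 2 = 1 := by
      have h2 : ¬ 2 ∣ D * s 2 := by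
        intro h'
        rcases Nat.prime_two.dvd_mul.1 h' with h' | h'
        · exact hpM (h'.mul_right _)
        · exact hpM ((h'.trans (h.sj_dvd 2)).mul_left _)
      have h3 : (D * s 2) % 2 = 1 := by omega
      have h4 : ((D * s 2 : ℕ) : ℤ) % 2 = 1 := by omega
      rw [← h4]
      push_cast
      rfl
    exact pt_two (m8 _ h0) (m8 _ h1) h.dif' hodd h8 q2
  · have hD : ¬ p ∣ D := fun h' => hpM (h'.mul_right _)
    have hj : ∀ j, ¬ p ∣ s j := fun j h' => hpM ((h'.trans (h.sj_dvd j)).mul_left _)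
    have hqi := Nat.prime_iff_prime_int.1 hpp
    refine hG p _ _ d.1 d.2 ?_ ?_ ?_
    · intro h'
      rcases hqi.dvd_or_dvd h' with h' | h'
      · rcases hqi.dvd_or_dvd h' with h' | h'
        · rcases hqi.dvd_or_dvd h' with h' | h'
          · have : p ∣ 2 := by exact_mod_cast h'
            exact hp2 ((Nat.prime_dvd_prime_iff_eq hpp Nat.prime_two).1 this)
          · exact hj 0 ((dvd_D hpp hD).1 h')
        · exact hj 1 ((dvd_D hpp hD).1 h')
      · exact hj 2 ((h.dvdC hpp hp2 hD).1 h')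
    · intro h'
      exact hpM (hf1 p hpp h')
    · intro h'
      rcases hpp.dvd_mul.1 (hf2 p hpp h') with h'' | h''
      · exact hp2 ((Nat.prime_dvd_prime_iff_eq hpp Nat.prime_two).1 h'')
      · exact hpM h''

theorem SURJ (hG : St_GOODS) : St_SURJ := by
  intro s hs hodd hbig hdif h0 h1 h017 h117
  have hp17 : Nat.Prime 17 := by norm_num
  have h17 : ¬ 17 ∣ ∏ j, s j := fun h => lt_irrefl _ (hbig 17 hp17 h)
  have hd1 : Dat s 1 := ⟨hs, hodd, Nat.coprime_one_right _, hdif, one_pos⟩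
  have hd17 : Dat s 17 := ⟨hs, hodd, ((Nat.Prime.coprime_iff_not_dvd hp17).2 h17).symm, hdif,
    by norm_num⟩
  constructor
  · intro d hd
    have hd' : d ∈ VG (1 * ∏ j, s j) (LF s (sgF (s 0) (s 1) (∏ j, s j))) := by
      rw [one_mul]; exact hd
    have hoth := hd1.oth hG (by norm_num) h0 h1 hd'
    rw [Nat.cast_one, one_mul, one_mul] at hoth
    refine ⟨hd'.1, hd'.2.1, hoth.1, fun p hp => ?_⟩
    by_cases hpP : p ∣ ∏ j, s j
    · have hpp := hp.out
      obtain ⟨e0, e1, e2⟩ := hd1.memE hpp hpP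
      have := hd1.pts (by have := hbig p hpp hpP; omega) hpP hd'.1 hd'.2.1
        (sgF (s 0) (s 1) (∏ j, s j)) (hd.2.2.2.2.2.2 p
          (Nat.mem_primeFactors.2 ⟨hpp, hpP, hs.ne_zero⟩))
        (by intro h; rw [e0 h, Nat.cast_one, one_mul]) (by intro h; rw [e1 h, Nat.cast_one, one_mul])
        (by intro h; rw [e2 h, Nat.cast_one, one_mul])
      rwa [Nat.cast_one, one_mul, one_mul] at this
    · exact hoth.2 p (by rwa [one_mul])
  · intro d hd
    have hd' : d ∈ VG (17 * ∏ j, s j) (L17 s (sgF (s 0) (s 1) (∏ j, s j))) := hd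
    have hoth := hd17.oth hG (by norm_num) h0 h1 hd'
    refine ⟨hd'.1, hd'.2.1, hoth.1, fun p hp => ?_⟩
    have hpp := hp.out
    have h17P0 : 17 * ∏ j, s j ≠ 0 := mul_ne_zero (by norm_num) hs.ne_zero
    by_cases hpP : p ∣ ∏ j, s j
    · have hp17' : p ≠ 17 := by
        rintro rfl
        exact h17 hpP
      have hpf : p ∈ (∏ j, s j).primeFactors := Nat.mem_primeFactors.2 ⟨hpp, hpP, hs.ne_zero⟩
      obtain ⟨e0, e1, e2⟩ := hd17.memE hpp hpP
      have htw : p ∈ tw (∏ j, s j) (sgF (s 0) (s 1) (∏ j, s j)) ↔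
          ¬ (p ∈ sgF (s 0) (s 1) (∏ j, s j) ↔ jacobiSym 17 p = -1) := by
        unfold tw
        rw [mem_filter]
        exact and_iff_right hpf
      have hL := hd'.2.2.2.2.2.2 p (Nat.mem_primeFactors.2 ⟨hpp, hpP.mul_left _, h17P0⟩)
      unfold L17 at hL
      rw [if_neg hp17'] at hL
      refine hd17.pts (by have := hbig p hpp hpP; omega) hpP hd'.1 hd'.2.1 _ hL ?_ ?_ ?_
      · intro h'
        rw [htw, e0 h', ← jac_tw hpp hp17']
        · push_cast
          rw [mul_neg]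
        · rw [dvd_neg, Int.natCast_dvd_natCast]
          exact cop_nd hpp hd17.cop01 h'
      · intro h'
        rw [htw, e1 h', ← jac_tw hpp hp17']
        · push_cast
          rw [mul_neg]
        · rw [dvd_neg, Int.natCast_dvd_natCast]
          exact cop_nd hpp hd17.cop01.symm h'
      · intro h'
        rw [htw, e2 h', ← jac_tw hpp hp17']
        · push_cast
          rfl
        · rw [Int.natCast_dvd_natCast]
          exact fun h'' => cop_nd hpp hd17.cop012.symm h' (h''.mul_right _)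
    · by_cases hp17' : p = 17
      · subst hp17'
        have hL := hd'.2.2.2.2.2.2 17 (Nat.mem_primeFactors.2 ⟨hp17, dvd_mul_right _ _, h17P0⟩)
        unfold L17 at hL
        rw [if_pos rfl] at hL
        exact pt17 (by omega) (by omega) hd'.1 hd'.2.1 hL.1 hL.2
      · refine hoth.2 p fun h' => ?_
        rcases hpp.dvd_mul.1 h' with h'' | h''
        · exact hp17' ((Nat.prime_dvd_prime_iff_eq hpp hp17).1 h'')
        · exact hpP h''

end Pool.Agent.Y535.RZ
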