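import Pool.Agent.Y667.RZ.Stm2
import Pool.Agent.Y535.RZ.SEL17
import Pool.Agent.TH460.NO.Pr0
import Pool.Agent.H735R3.Exist

/-!
# Project RZ: local points
-/

set_option autoImplicit false

namespace Pool.Agent.Y535.RZ

open Finset Pool.Agent.W262.RK Pool.Agent.W307.RT Pool.Agent.W307.RS Pool.Agent.W307.SE
  Pool.Agent.W307.FK Pool.Agent.W214.RK2 Pool.Agent.Y667.RP Pool.Agent.Y667.RZ

section

variable {p : ℕ} [hp : Fact p.Prime]

omit hp in
lemma jac_congr {a b : ℤ} (h : (p : ℤ) ∣ a - b) : jacobiSym a p = jacobiSym b p := by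
  rw [jacobiSym.mod_left a, jacobiSym.mod_left b]
  congr 1
  exact Int.emod_eq_emod_iff_emod_sub_eq_zero.2 (Int.emod_eq_zero_of_dvd h)

lemma jac_val {y : ℤ} (hy : ¬ (p : ℤ) ∣ y) : jacobiSym y p = 1 ∨ jacobiSym y p = -1 := by
  apply jacobiSym.eq_one_or_neg_one
  rw [Int.gcd_comm, ← Int.isCoprime_iff_gcd_eq_one]
  exact ((Nat.prime_iff_prime_int.1 hp.out).coprime_iff_not_dvd).2 hy

lemma jac_nd {y : ℤ} (h : jacobiSym y p ≠ 0) : ¬ (p : ℤ) ∣ y := by
  intro hd
  apply h
  rw [jacobiSym.eq_zero_iff]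
  refine ⟨hp.out.ne_zero, ?_⟩
  intro h1
  have h2 : (p : ℤ) ∣ (y.gcd (p : ℤ) : ℤ) := Int.dvd_coe_gcd hd (dvd_refl _)
  rw [h1] at h2
  have h3 : p ∣ 1 := by exact_mod_cast h2
  exact hp.out.one_lt.ne' (Nat.dvd_one.1 h3)

/-- two prescribed symbols -/
lemma exU (h7 : 7 ≤ p) {t : ℤ} (ht : ¬ (p : ℤ) ∣ t) {e1 e2 : ℤ} (he1 : e1 = 1 ∨ e1 = -1)
    (he2 : e2 = 1 ∨ e2 = -1) : ∃ u : ℤ, jacobiSym u p = e1 ∧ jacobiSym (u - t) p = e2 := by
  have hF : ringChar (ZMod p) ≠ 2 := by
    rw [ZMod.ringChar_zmod_n]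
    omega
  have ht0 : (-(t : ZMod p)) ≠ 0 := by
    rw [neg_ne_zero]
    intro h
    exact ht ((ZMod.intCast_zmod_eq_zero_iff_dvd t p).1 h)
  have h1 := Pool.Agent.H735R3.sum_shift hF ht0
  have h2 := quadraticChar_sum_zero hF
  have h3 : ∑ u : ZMod p, quadraticChar (ZMod p) (u + -(t : ZMod p)) = 0 := by
    rw [← h2]
    exact Fintype.sum_equiv (Equiv.addRight (-(t : ZMod p))) _ _ fun _ => rfl
  have hb : ∀ u : ZMod p, quadraticChar (ZMod p) u = 0 ∨ quadraticChar (ZMod p) u = 1 ∨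
      quadraticChar (ZMod p) u = -1 := by
    intro u
    by_cases hu : u = 0
    · left; rw [hu]; simp
    · right; exact quadraticChar_dichotomy hu
  by_contra hcon
  push Not at hcon
  -- every term away from `0`, `t` vanishes
  have h4 : ∀ u : ZMod p, u ≠ 0 → u ≠ t → (1 + e1 * quadraticChar (ZMod p) u) *
      (1 + e2 * quadraticChar (ZMod p) (u + -(t : ZMod p))) = 0 := by
    intro u hu hut
    have h5 := hcon (u.val : ℤ)
    have e1' : jacobiSym (u.val : ℤ) p = quadraticChar (ZMod p) u := by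
      rw [← jacobiSym.legendreSym.to_jacobiSym, legendreSym]
      congr 1
      simp
    have e2' : jacobiSym ((u.val : ℤ) - t) p = quadraticChar (ZMod p) (u + -(t : ZMod p)) := by
      rw [← jacobiSym.legendreSym.to_jacobiSym, legendreSym]
      congr 1
      push_cast
      rw [sub_eq_add_neg]
      simp
    rw [e1', e2'] at h5
    have h6 : u + -(t : ZMod p) ≠ 0 := by
      intro h
      apply hut
      linear_combination h
    rcases quadraticChar_dichotomy hu with h7 | h7 <;>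
      rcases quadraticChar_dichotomy h6 with h8 | h8 <;>
      rcases he1 with rfl | rfl <;> rcases he2 with rfl | rfl <;>
      rw [h7, h8] <;> rw [h7, h8] at h5 <;>
      first
        | exact absurd rfl (h5 rfl)
        | norm_num
  have h5 : ∑ u : ZMod p, (1 + e1 * quadraticChar (ZMod p) u) *
      (1 + e2 * quadraticChar (ZMod p) (u + -(t : ZMod p))) = p - e1 * e2 := by
    have : ∀ u : ZMod p, (1 + e1 * quadraticChar (ZMod p) u) *
      (1 + e2 * quadraticChar (ZMod p) (u + -(t : ZMod p))) =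
      1 + e1 * quadraticChar (ZMod p) u + e2 * quadraticChar (ZMod p) (u + -(t : ZMod p)) +
        e1 * e2 * (quadraticChar (ZMod p) u * quadraticChar (ZMod p) (u + -(t : ZMod p))) := by
      intro u; ring
    simp only [this, Finset.sum_add_distrib, ← Finset.mul_sum, h1, h2, h3]
    simp
    ring
  have h6 : ∑ u : ZMod p, (1 + e1 * quadraticChar (ZMod p) u) *
      (1 + e2 * quadraticChar (ZMod p) (u + -(t : ZMod p))) ≤ 4 := by
    have h7 : ∑ u : ZMod p, (1 + e1 * quadraticChar (ZMod p) u) *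
      (1 + e2 * quadraticChar (ZMod p) (u + -(t : ZMod p))) =
      ∑ u ∈ ({0, (t : ZMod p)} : Finset (ZMod p)), (1 + e1 * quadraticChar (ZMod p) u) *
      (1 + e2 * quadraticChar (ZMod p) (u + -(t : ZMod p))) := by
      symm
      refine Finset.sum_subset (Finset.subset_univ _) fun u _ hu => ?_
      simp only [Finset.mem_insert, Finset.mem_singleton, not_or] at hu
      exact h4 u hu.1 hu.2
    rw [h7]
    refine (Finset.sum_le_card_nsmul _ _ 2 ?_).trans ?_
    · intro u hu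
      simp only [Finset.mem_insert, Finset.mem_singleton] at hu
      rcases hu with rfl | rfl
      · have := hb (0 + -(t : ZMod p))
        rw [quadraticChar_zero]
        rcases this with h | h | h <;> rw [h] <;> rcases he2 with rfl | rfl <;> norm_num
      · have := hb (t : ZMod p)
        have h0 : (t : ZMod p) + -(t : ZMod p) = 0 := by ring
        rw [h0, quadraticChar_zero]
        rcases this with h | h | h <;> rw [h] <;> rcases he1 with rfl | rfl <;> norm_num
    · have : (({0, (t : ZMod p)} : Finset (ZMod p)).card : ℤ) ≤ 2 := by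
        exact_mod_cast Finset.card_le_two
      rw [nsmul_eq_mul]
      linarith
  rw [h5] at h6
  have h7' : (7 : ℤ) ≤ p := by exact_mod_cast h7
  rcases he1 with rfl | rfl <;> rcases he2 with rfl | rfl <;> linarith

/-- squares in the field of p-adic numbers -/
lemma sqp (h2 : p ≠ 2) (k : ℕ) {M N : ℤ} (hM : jacobiSym M p = 1)
    (hN : N = ((p : ℤ) ^ k) ^ 2 * M) : IsSquare ((N : ℤ) : ℚ_[p]) := by
  obtain ⟨v, hv⟩ := Pool.Agent.TH460.NO.jac_sq h2 hM
  refine ⟨(p : ℚ_[p]) ^ k * v, ?_⟩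
  rw [hN]
  push_cast
  rw [hv]
  ring

/-- a local point from integers -/
lemma loc_of {K : Type} [Field K] [CharZero K] {A B d1 d2 : ℤ} (m X : ℤ) (hm : m ≠ 0)
    (h1 : IsSquare ((X * d1 : ℤ) : K)) (h2 : IsSquare (((X - A * m ^ 2) * d2 : ℤ) : K))
    (h3 : IsSquare ((X * (X - A * m ^ 2) * (X - B * m ^ 2) : ℤ) : K))
    (h0 : X * (X - A * m ^ 2) * (X - B * m ^ 2) ≠ 0) : Loc K A B d1 d2 := by
  have hm' : (m : K) ≠ 0 := by exact_mod_cast hm
  obtain ⟨r1, hr1⟩ := h1
  obtain ⟨r2, hr2⟩ := h2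
  obtain ⟨r3, hr3⟩ := h3
  push_cast at hr1 hr2 hr3
  have h0' : (X : K) * (X - A * m ^ 2) * (X - B * m ^ 2) ≠ 0 := by exact_mod_cast h0
  refine ⟨X / m ^ 2, r3 / m ^ 3, ?_, ?_, ⟨r1 / m, ?_⟩, ⟨r2 / m, ?_⟩⟩
  · refine div_ne_zero ?_ (pow_ne_zero _ hm')
    rintro rfl
    apply h0'
    rw [hr3, mul_zero]
  · rw [div_pow, sq, ← hr3]
    field_simp
  · field_simp
    linear_combination hr1
  · field_simp
    linear_combination hr2

lemma dvsgn_false {d : ℤ} (h : dv p d = false) :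
    ¬ (p : ℤ) ∣ d ∧ sgn p d = decide (jacobiSym d p = -1) := by
  unfold dv at h
  rw [decide_eq_false_iff_not] at h
  refine ⟨h, ?_⟩
  unfold sgn sg0
  have : Int.gcd d p = 1 := by
    rw [Int.gcd_comm, ← Int.isCoprime_iff_gcd_eq_one]
    exact ((Nat.prime_iff_prime_int.1 hp.out).coprime_iff_not_dvd).2 h
  rw [this]
  simp

lemma dvsgn_true {d : ℤ} (hd : Squarefree d) (h : dv p d = true) :
    ∃ d' : ℤ, d = p * d' ∧ ¬ (p : ℤ) ∣ d' ∧ sgn p d = decide (jacobiSym d' p = -1) := by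
  unfold dv at h
  rw [decide_eq_true_iff] at h
  obtain ⟨d', rfl⟩ := h
  refine ⟨d', rfl, ?_, ?_⟩
  · intro h
    obtain ⟨c, rfl⟩ := h
    have := hd p ⟨c, by ring⟩
    exact (Nat.prime_iff_prime_int.1 hp.out).not_isUnit this
  · unfold sgn sg0
    have h1 : Int.gcd ((p : ℤ) * d') p = p := by
      rw [Int.gcd, Int.natAbs_mul, Int.natAbs_natCast]
      exact Nat.gcd_eq_right (dvd_mul_right _ _)
    rw [h1]
    have h2 : (p : ℤ) * d' / (p : ℤ) = d' :=
      Int.mul_ediv_cancel_left _ (by exact_mod_cast hp.out.ne_zero)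
    rw [h2]

end

end Pool.Agent.Y535.RZ
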