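import Pool.Agent.Y535.RZ.Pts

/-!
# Project RZ: local points, the cases
-/

set_option autoImplicit false

namespace Pool.Agent.Y535.RZ

open Finset Pool.Agent.W262.RK Pool.Agent.W307.RT Pool.Agent.W307.RS Pool.Agent.W307.SE
  Pool.Agent.W307.FK Pool.Agent.W214.RK2 Pool.Agent.Y667.RP Pool.Agent.Y667.RZ

lemma xor_j {x y z : ℤ} (hx : x = 1 ∨ x = -1) (hy : y = 1 ∨ y = -1) (hz : z = 1 ∨ z = -1)
    (h : xor (decide (x = -1)) (decide (y = -1)) = decide (z = -1)) : x * y = z := by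
  rcases hx with rfl | rfl <;> rcases hy with rfl | rfl <;> rcases hz with rfl | rfl <;>
    revert h <;> decide

lemma dec_j {x y : ℤ} (hx : x = 1 ∨ x = -1) (hy : y = 1 ∨ y = -1)
    (h : decide (x = -1) = decide (y = -1)) : x = y := by
  rcases hx with rfl | rfl <;> rcases hy with rfl | rfl <;> revert h <;> decide

lemma dec_one {x : ℤ} (hx : x = 1 ∨ x = -1) (h : decide (x = -1) = false) : x = 1 := by
  rcases hx with rfl | rfl
  · rfl
  · simp at h

section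

variable {p : ℕ} [hp : Fact p.Prime]

lemma loc_j (h2 : p ≠ 2) {A B d1 d2 : ℤ} (m X : ℤ) (hm : m ≠ 0) (k1 k2 k3 : ℕ) {M1 M2 M3 : ℤ}
    (e1 : X * d1 = ((p : ℤ) ^ k1) ^ 2 * M1) (e2 : (X - A * m ^ 2) * d2 = ((p : ℤ) ^ k2) ^ 2 * M2)
    (e3 : X * (X - A * m ^ 2) * (X - B * m ^ 2) = ((p : ℤ) ^ k3) ^ 2 * M3)
    (j1 : jacobiSym M1 p = 1) (j2 : jacobiSym M2 p = 1) (j3 : jacobiSym M3 p = 1) :
    Loc ℚ_[p] A B d1 d2 := by
  refine loc_of m X hm (sqp h2 k1 j1 e1) (sqp h2 k2 j2 e2) (sqp h2 k3 j3 e3) ?_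
  rw [e3]
  have h3 : M3 ≠ 0 := by
    rintro rfl
    exact jac_nd (by rw [j3]; norm_num) (dvd_zero _)
  have hp0 : (p : ℤ) ≠ 0 := by exact_mod_cast hp.out.ne_zero
  positivity

lemma sq_one_of {x : ℤ} (hx : x = 1 ∨ x = -1) : x * x = 1 := by
  rcases hx with rfl | rfl <;> norm_num

lemma pt0 (h7 : 7 ≤ p) {A B d1 d2 : ℤ} (hA : (p : ℤ) ∣ A) (hA2 : ¬ (p : ℤ) ^ 2 ∣ A)
    (hB : ¬ (p : ℤ) ∣ B) (q1 : Squarefree d1) (q2 : Squarefree d2)
    (hLR : LR 0 (sg0 p (-B)) (dv p d1) (dv p d2) (sgn p d1) (sgn p d2)) :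
    Loc ℚ_[p] A B d1 d2 := by
  have h2 : p ≠ 2 := by omega
  unfold LR at hLR
  rw [if_pos rfl] at hLR
  obtain ⟨hvw, hx⟩ := hLR
  have hnB : ¬ (p : ℤ) ∣ -B := by rwa [dvd_neg]
  cases hv : dv p d1
  · rw [hv] at hvw hx
    obtain ⟨n1, s1⟩ := dvsgn_false hv
    obtain ⟨n2, s2⟩ := dvsgn_false hvw.symm
    rw [s1, s2, Bool.false_and] at hx
    have hj : jacobiSym d1 p * jacobiSym d2 p = 1 :=
      xor_j (jac_val n1) (jac_val n2) (Or.inl rfl) (by rw [hx]; decide)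
    obtain ⟨u, hu1, hu2⟩ := exU h7 hB (jac_val n1) (Or.inl (rfl : (1 : ℤ) = 1))
    have hd1 := sq_one_of (jac_val n1)
    have c1 : jacobiSym (u - A * 1 ^ 2) p = jacobiSym u p := jac_congr (by
      rw [show u - A * 1 ^ 2 - u = -A by ring, dvd_neg]; exact hA)
    have c2 : jacobiSym (u - B * 1 ^ 2) p = 1 := by rw [one_pow, mul_one]; exact hu2
    refine loc_j h2 1 u one_ne_zero 0 0 0 (M1 := u * d1) (M2 := (u - A * 1 ^ 2) * d2)
      (M3 := u * (u - A * 1 ^ 2) * (u - B * 1 ^ 2)) (by ring) (by ring) (by ring) ?_ ?_ ?_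
    · rw [jacobiSym.mul_left, hu1, hd1]
    · rw [jacobiSym.mul_left, c1, hu1, hj]
    · rw [jacobiSym.mul_left, jacobiSym.mul_left, c1, c2, hu1, hd1, one_mul]
  · rw [hv] at hvw hx
    obtain ⟨a1, rfl, n1, s1⟩ := dvsgn_true q1 hv
    obtain ⟨a2, rfl, n2, s2⟩ := dvsgn_true q2 hvw.symm
    obtain ⟨A', rfl⟩ := hA
    have hA' : ¬ (p : ℤ) ∣ A' := by
      intro h
      apply hA2
      rw [sq]
      exact mul_dvd_mul_left _ h
    rw [s1, s2, Bool.true_and] at hx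
    have hj := xor_j (jac_val n1) (jac_val n2) (jac_val hnB) hx
    obtain ⟨u, hu1, hu2⟩ := exU h7 hA' (jac_val n1) (jac_val n2)
    have hd1 := sq_one_of (jac_val n1)
    have hd2 := sq_one_of (jac_val n2)
    have hB1 := sq_one_of (jac_val hnB)
    have c2 : jacobiSym (p * u - B) p = jacobiSym (-B) p := jac_congr (by
      rw [show (p : ℤ) * u - B - -B = p * u by ring]; exact dvd_mul_right _ _)
    refine loc_j h2 1 (p * u) one_ne_zero 1 1 1 (M1 := u * a1) (M2 := (u - A') * a2)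
      (M3 := u * (u - A') * (p * u - B)) (by ring) (by ring) (by ring) ?_ ?_ ?_
    · rw [jacobiSym.mul_left, hu1, hd1]
    · rw [jacobiSym.mul_left, hu2, hd2]
    · rw [jacobiSym.mul_left, jacobiSym.mul_left, hu1, hu2, c2, hj, hB1]

lemma pt1 (h7 : 7 ≤ p) {A B d1 d2 : ℤ} (hB : (p : ℤ) ∣ B) (hB2 : ¬ (p : ℤ) ^ 2 ∣ B)
    (hA : ¬ (p : ℤ) ∣ A) (q1 : Squarefree d1)
    (hLR : LR 1 (sg0 p (-A)) (dv p d1) (dv p d2) (sgn p d1) (sgn p d2)) :
    Loc ℚ_[p] A B d1 d2 := by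
  have h2 : p ≠ 2 := by omega
  unfold LR at hLR
  rw [if_neg (by decide), if_pos rfl] at hLR
  obtain ⟨hw, hx⟩ := hLR
  have hnA : ¬ (p : ℤ) ∣ -A := by rwa [dvd_neg]
  obtain ⟨n2, s2⟩ := dvsgn_false hw
  rw [s2] at hx
  cases hv : dv p d1
  · obtain ⟨n1, s1⟩ := dvsgn_false hv
    rw [hv, Bool.false_and] at hx
    have hj := dec_one (jac_val n2) hx
    obtain ⟨u, hu1, hu2⟩ := exU h7 hA (jac_val n1) (Or.inl (rfl : (1 : ℤ) = 1))
    have hd1 := sq_one_of (jac_val n1)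
    have c1 : jacobiSym (u - B * 1 ^ 2) p = jacobiSym u p := jac_congr (by
      rw [show u - B * 1 ^ 2 - u = -B by ring, dvd_neg]; exact hB)
    have c2 : jacobiSym (u - A * 1 ^ 2) p = 1 := by rw [one_pow, mul_one]; exact hu2
    refine loc_j h2 1 u one_ne_zero 0 0 0 (M1 := u * d1) (M2 := (u - A * 1 ^ 2) * d2)
      (M3 := u * (u - A * 1 ^ 2) * (u - B * 1 ^ 2)) (by ring) (by ring) (by ring) ?_ ?_ ?_
    · rw [jacobiSym.mul_left, hu1, hd1]
    · rw [jacobiSym.mul_left, c2, hj, one_mul]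
    · rw [jacobiSym.mul_left, jacobiSym.mul_left, c1, c2, hu1, mul_one, hd1]
  · obtain ⟨a1, rfl, n1, s1⟩ := dvsgn_true q1 hv
    rw [hv, Bool.true_and] at hx
    have hj := dec_j (jac_val n2) (jac_val hnA) hx
    obtain ⟨B', rfl⟩ := hB
    have hB' : ¬ (p : ℤ) ∣ B' := by
      intro h
      apply hB2
      rw [sq]
      exact mul_dvd_mul_left _ h
    have hA1 := sq_one_of (jac_val hnA)
    have hd1 := sq_one_of (jac_val n1)
    have he : jacobiSym a1 p * jacobiSym (-A) p = 1 ∨ jacobiSym a1 p * jacobiSym (-A) p = -1 := by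
      rcases jac_val n1 with h | h <;> rcases jac_val hnA with h' | h' <;> rw [h, h'] <;> norm_num
    obtain ⟨u, hu1, hu2⟩ := exU h7 hB' (jac_val n1) he
    have c2 : jacobiSym (p * u - A) p = jacobiSym (-A) p := jac_congr (by
      rw [show (p : ℤ) * u - A - -A = p * u by ring]; exact dvd_mul_right _ _)
    refine loc_j h2 1 (p * u) one_ne_zero 1 0 1 (M1 := u * a1) (M2 := (p * u - A) * d2)
      (M3 := u * (p * u - A) * (u - B')) (by ring) (by ring) (by ring) ?_ ?_ ?_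
    · rw [jacobiSym.mul_left, hu1, hd1]
    · rw [jacobiSym.mul_left, c2, hj, hA1]
    · rw [jacobiSym.mul_left, jacobiSym.mul_left, hu1, hu2, c2]
      linear_combination (jacobiSym a1 p * jacobiSym a1 p) * hA1 + hd1

lemma pt2 (h7 : 7 ≤ p) {A B d1 d2 : ℤ} (hC : (p : ℤ) ∣ A - B) (hC2 : ¬ (p : ℤ) ^ 2 ∣ A - B)
    (hA : ¬ (p : ℤ) ∣ A) (q2 : Squarefree d2)
    (hLR : LR 2 (sg0 p A) (dv p d1) (dv p d2) (sgn p d1) (sgn p d2)) :
    Loc ℚ_[p] A B d1 d2 := by
  have h2 : p ≠ 2 := by omega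
  unfold LR at hLR
  rw [if_neg (by decide), if_neg (by decide)] at hLR
  obtain ⟨hv, hx⟩ := hLR
  obtain ⟨n1, s1⟩ := dvsgn_false hv
  rw [s1] at hx
  cases hw : dv p d2
  · obtain ⟨n2, s2⟩ := dvsgn_false hw
    rw [hw, Bool.false_and] at hx
    have hj := dec_one (jac_val n1) hx
    obtain ⟨u, hu1, hu2⟩ := exU h7 hA (Or.inl (rfl : (1 : ℤ) = 1)) (jac_val n2)
    have hd2 := sq_one_of (jac_val n2)
    have c2 : jacobiSym (u - A * 1 ^ 2) p = jacobiSym d2 p := by rw [one_pow, mul_one]; exact hu2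
    have c1 : jacobiSym (u - B * 1 ^ 2) p = jacobiSym d2 p := by
      rw [← c2]
      exact jac_congr (by rw [show u - B * 1 ^ 2 - (u - A * 1 ^ 2) = A - B by ring]; exact hC)
    refine loc_j h2 1 u one_ne_zero 0 0 0 (M1 := u * d1) (M2 := (u - A * 1 ^ 2) * d2)
      (M3 := u * (u - A * 1 ^ 2) * (u - B * 1 ^ 2)) (by ring) (by ring) (by ring) ?_ ?_ ?_
    · rw [jacobiSym.mul_left, hu1, hj, one_mul]
    · rw [jacobiSym.mul_left, c2, hd2]
    · rw [jacobiSym.mul_left, jacobiSym.mul_left, c1, c2, hu1, one_mul, hd2]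
  · obtain ⟨a2, rfl, n2, s2⟩ := dvsgn_true q2 hw
    rw [hw, Bool.true_and] at hx
    have hj := dec_j (jac_val n1) (jac_val hA) hx
    obtain ⟨c, hc⟩ := hC
    have hB : B = A - p * c := by rw [← hc]; ring
    have hc' : ¬ (p : ℤ) ∣ -c := by
      rw [dvd_neg]
      intro h
      apply hC2
      rw [sq, hc]
      exact mul_dvd_mul_left _ h
    have hA1 := sq_one_of (jac_val hA)
    have hd2 := sq_one_of (jac_val n2)
    have he : jacobiSym A p * jacobiSym a2 p = 1 ∨ jacobiSym A p * jacobiSym a2 p = -1 := by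
      rcases jac_val n2 with h | h <;> rcases jac_val hA with h' | h' <;> rw [h, h'] <;> norm_num
    obtain ⟨u, hu1, hu2⟩ := exU h7 hc' (jac_val n2) he
    have c2 : jacobiSym (A + p * u) p = jacobiSym A p := jac_congr (by
      rw [show A + (p : ℤ) * u - A = p * u by ring]; exact dvd_mul_right _ _)
    refine loc_j h2 1 (A + p * u) one_ne_zero 0 1 1 (M1 := (A + p * u) * d1) (M2 := u * a2)
      (M3 := (A + p * u) * u * (u - -c)) (by ring) (by ring) (by rw [hB]; ring) ?_ ?_ ?_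
    · rw [jacobiSym.mul_left, c2, hj, hA1]
    · rw [jacobiSym.mul_left, hu1, hd2]
    · rw [jacobiSym.mul_left, jacobiSym.mul_left, hu1, hu2, c2]
      linear_combination (jacobiSym a2 p * jacobiSym a2 p) * hA1 + hd2

end

/-- the point at 17 of the twist -/
lemma pt17 [Fact (Nat.Prime 17)] {a b d1 d2 : ℤ} (ha : a % 17 = 1) (hb : b % 17 = 15)
    (q1 : Squarefree d1) (q2 : Squarefree d2) (hh : sgn 17 d1 = false)
    (hg : sgn 17 d2 = dv 17 d1) : Loc ℚ_[17] (17 * a) (17 * b) d1 d2 := by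
  have h2 : (17 : ℕ) ≠ 2 := by norm_num
  have jm : ∀ x y : ℤ, x % 17 = y % 17 → jacobiSym x 17 = jacobiSym y 17 := by
    intro x y h
    rw [jacobiSym.mod_left x, jacobiSym.mod_left y]
    congr 1
  have J1 : jacobiSym 1 17 = 1 := by norm_num
  have J3 : jacobiSym 3 17 = -1 := by norm_num
  have J15 : jacobiSym 15 17 = 1 := by norm_num
  have Jm : jacobiSym (-1) 17 = 1 := by norm_num
  have Jm3 : jacobiSym (-3) 17 = -1 := by norm_num
  cases hv : dv 17 d1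
  · obtain ⟨n1, s1⟩ := dvsgn_false hv
    rw [s1] at hh
    have j1 := dec_one (jac_val n1) hh
    rw [hv] at hg
    cases hw : dv 17 d2
    · obtain ⟨n2, s2⟩ := dvsgn_false hw
      rw [s2] at hg
      have j2 := dec_one (jac_val n2) hg
      refine loc_j h2 17 1 (by norm_num) 0 0 0 (M1 := d1) (M2 := (1 - 17 * a * 17 ^ 2) * d2)
        (M3 := (1 - 17 * a * 17 ^ 2) * (1 - 17 * b * 17 ^ 2)) (by ring) (by ring) (by ring) j1
        ?_ ?_
      · rw [jacobiSym.mul_left, j2, jm _ 1 (by omega), J1]; norm_num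
      · rw [jacobiSym.mul_left, jm (1 - 17 * a * 17 ^ 2) 1 (by omega),
          jm (1 - 17 * b * 17 ^ 2) 1 (by omega), J1]; norm_num
    · obtain ⟨a2, rfl, n2, s2⟩ := dvsgn_true q2 hw
      rw [s2] at hg
      have j2 := dec_one (jac_val n2) hg
      refine loc_j h2 1 (17 ^ 2) (by norm_num) 1 1 2 (M1 := d1) (M2 := (17 - a) * a2)
        (M3 := (17 - a) * (17 - b)) (by push_cast; ring) (by push_cast; ring)
        (by push_cast; ring) j1 ?_ ?_
      · rw [jacobiSym.mul_left, j2, jm _ (-1) (by omega), Jm]; norm_num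
      · rw [jacobiSym.mul_left, jm (17 - a) (-1) (by omega), jm (17 - b) 2 (by omega), Jm]
        norm_num
  · obtain ⟨a1, rfl, n1, s1⟩ := dvsgn_true q1 hv
    rw [s1] at hh
    have j1 := dec_one (jac_val n1) hh
    rw [hv] at hg
    cases hw : dv 17 d2
    · obtain ⟨n2, s2⟩ := dvsgn_false hw
      rw [s2, decide_eq_true_iff] at hg
      refine loc_j h2 1 (17 * (a + 17 * 3)) (by norm_num) 1 1 2 (M1 := (a + 17 * 3) * a1)
        (M2 := 3 * d2) (M3 := (a + 17 * 3) * 3 * (a - b + 17 * 3)) (by push_cast; ring)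
        (by push_cast; ring) (by push_cast; ring) ?_ ?_ ?_
      · rw [jacobiSym.mul_left, j1, jm _ 1 (by omega), J1]; norm_num
      · rw [jacobiSym.mul_left, hg, J3]; norm_num
      · rw [jacobiSym.mul_left, jacobiSym.mul_left, jm (a + 17 * 3) 1 (by omega),
          jm (a - b + 17 * 3) 3 (by omega), J1, J3]; norm_num
    · obtain ⟨a2, rfl, n2, s2⟩ := dvsgn_true q2 hw
      rw [s2, decide_eq_true_iff] at hg
      refine loc_j h2 1 (17 * (b + 17 * 3)) (by norm_num) 1 1 2 (M1 := (b + 17 * 3) * a1)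
        (M2 := (b - a + 17 * 3) * a2) (M3 := (b + 17 * 3) * 3 * (b - a + 17 * 3))
        (by push_cast; ring) (by push_cast; ring) (by push_cast; ring) ?_ ?_ ?_
      · rw [jacobiSym.mul_left, j1, jm _ 15 (by omega), J15]; norm_num
      · rw [jacobiSym.mul_left, hg, jm _ (-3) (by omega), Jm3]; norm_num
      · rw [jacobiSym.mul_left, jacobiSym.mul_left, jm (b + 17 * 3) 15 (by omega),
          jm (b - a + 17 * 3) (-3) (by omega), J15, J3, Jm3]; norm_num

/-- squares at 2 -/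
lemma sq2 [Fact (Nat.Prime 2)] (k : ℕ) {M N : ℤ} (hM : M % 8 = 1)
    (hN : N = ((2 : ℤ) ^ k) ^ 2 * M) : IsSquare ((N : ℤ) : ℚ_[2]) := by
  have h1 : (2 : ℤ) ^ 3 ∣ M - 1 := by norm_num; omega
  have h2 := norm_int_le h1
  obtain ⟨v, hv⟩ := sq_near_one (w := ((M - 1 : ℤ) : ℚ_[2])) (by
    refine h2.trans (le_of_eq (by norm_num)))
  refine ⟨2 ^ k * v, ?_⟩
  have h3 : (M : ℚ_[2]) = v * v := by
    rw [← hv]; push_cast; ring
  rw [hN]
  push_cast
  rw [h3]
  ring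

lemma loc_2 [Fact (Nat.Prime 2)] {A B d1 d2 : ℤ} (m X : ℤ) (hm : m ≠ 0) (k1 k2 k3 : ℕ)
    {M1 M2 M3 : ℤ} (e1 : X * d1 = ((2 : ℤ) ^ k1) ^ 2 * M1)
    (e2 : (X - A * m ^ 2) * d2 = ((2 : ℤ) ^ k2) ^ 2 * M2)
    (e3 : X * (X - A * m ^ 2) * (X - B * m ^ 2) = ((2 : ℤ) ^ k3) ^ 2 * M3)
    (j1 : M1 % 8 = 1) (j2 : M2 % 8 = 1) (j3 : M3 % 8 = 1) :
    Loc ℚ_[2] A B d1 d2 := by
  refine loc_of m X hm (sq2 k1 j1 e1) (sq2 k2 j2 e2) (sq2 k3 j3 e3) ?_
  rw [e3]
  have h3 : M3 ≠ 0 := by omega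
  positivity

lemma mul8 {x y a b : ℤ} (hx : x % 8 = a) (hy : y % 8 = b) : (x * y) % 8 = (a * b) % 8 := by
  rw [Int.mul_emod, hx, hy]

/-- the point at 2 -/
lemma pt_two [Fact (Nat.Prime 2)] {A B C d1 d2 : ℤ} (hA : A % 8 = 1) (hB : B % 8 = 1)
    (hC : A - B = 32 * C) (hCo : C % 2 = 1) (hd1 : d1 % 8 = 1) (q2 : Squarefree d2) :
    Loc ℚ_[2] A B d1 d2 := by
  rcases Int.emod_two_eq_zero_or_one d2 with h | h
  · obtain ⟨e, rfl⟩ : (2 : ℤ) ∣ d2 := Int.dvd_of_emod_eq_zero h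
    have he : e % 2 = 1 := by
      rcases Int.emod_two_eq_zero_or_one e with h' | h'
      · exfalso
        obtain ⟨f, rfl⟩ : (2 : ℤ) ∣ e := Int.dvd_of_emod_eq_zero h'
        have := q2 2 ⟨f, by ring⟩
        rw [Int.isUnit_iff] at this
        omega
      · exact h'
    have hCC : (C * C) % 8 = 1 := by
      have : C % 8 = 1 ∨ C % 8 = 3 ∨ C % 8 = 5 ∨ C % 8 = 7 := by omega
      rcases this with h | h | h | h <;> rw [mul8 h h] <;> norm_num
    have hCe : (C * e) % 8 = 1 ∨ (C * e) % 8 = 3 ∨ (C * e) % 8 = 5 ∨ (C * e) % 8 = 7 := by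
      have h1 : (C * e) % 2 = 1 := by rw [Int.mul_emod, hCo, he]; norm_num
      omega
    have hBA : B = A - 32 * C := by linarith
    have hAB : A = B + 32 * C := by linarith
    rcases hCe with h | h | h | h
    · refine loc_2 1 (A + 512 * C) one_ne_zero 0 5 7 (M1 := (A + 512 * C) * d1) (M2 := C * e)
        (M3 := (A + 512 * C) * (17 * (C * C))) (by ring) (by ring) (by rw [hBA]; ring) ?_ h ?_
      · rw [mul8 (show (A + 512 * C) % 8 = 1 by omega) hd1]; norm_num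
      · rw [mul8 (show (A + 512 * C) % 8 = 1 by omega)
          (show (17 * (C * C)) % 8 = 1 by omega)]; norm_num
    · refine loc_2 1 (B - 640 * C) one_ne_zero 0 3 6 (M1 := (B - 640 * C) * d1)
        (M2 := -21 * (C * e)) (M3 := (B - 640 * C) * (105 * (C * C))) (by ring)
        (by rw [hAB]; ring) (by rw [hAB]; ring) ?_ (by omega) ?_
      · rw [mul8 (show (B - 640 * C) % 8 = 1 by omega) hd1]; norm_num
      · rw [mul8 (show (B - 640 * C) % 8 = 1 by omega)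
          (show (105 * (C * C)) % 8 = 1 by omega)]; norm_num
    · refine loc_2 1 (A + 640 * C) one_ne_zero 0 4 6 (M1 := (A + 640 * C) * d1)
        (M2 := 5 * (C * e)) (M3 := (A + 640 * C) * (105 * (C * C))) (by ring) (by ring)
        (by rw [hBA]; ring) ?_ (by omega) ?_
      · rw [mul8 (show (A + 640 * C) % 8 = 1 by omega) hd1]; norm_num
      · rw [mul8 (show (A + 640 * C) % 8 = 1 by omega)
          (show (105 * (C * C)) % 8 = 1 by omega)]; norm_num
    · refine loc_2 1 (B - 512 * C) one_ne_zero 0 3 7 (M1 := (B - 512 * C) * d1)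
        (M2 := -17 * (C * e)) (M3 := (B - 512 * C) * (17 * (C * C))) (by ring)
        (by rw [hAB]; ring) (by rw [hAB]; ring) ?_ (by omega) ?_
      · rw [mul8 (show (B - 512 * C) % 8 = 1 by omega) hd1]; norm_num
      · rw [mul8 (show (B - 512 * C) % 8 = 1 by omega)
          (show (17 * (C * C)) % 8 = 1 by omega)]; norm_num
  · have hd2 : d2 % 8 = 1 ∨ d2 % 8 = 3 ∨ d2 % 8 = 5 ∨ d2 % 8 = 7 := by omega
    rcases hd2 with h | h | h | h
    · refine loc_2 4 1 (by norm_num) 0 0 0 (M1 := d1) (M2 := (1 - A * 4 ^ 2) * d2)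
        (M3 := (1 - A * 4 ^ 2) * (1 - B * 4 ^ 2)) (by ring) (by ring) (by ring) hd1 ?_ ?_
      · rw [mul8 (show (1 - A * 4 ^ 2) % 8 = 1 by omega) h]; norm_num
      · rw [mul8 (show (1 - A * 4 ^ 2) % 8 = 1 by omega)
          (show (1 - B * 4 ^ 2) % 8 = 1 by omega)]; norm_num
    · refine loc_2 1 4 (by norm_num) 1 0 1 (M1 := d1) (M2 := (4 - A) * d2)
        (M3 := (4 - A) * (4 - B)) (by ring) (by ring) (by ring) hd1 ?_ ?_
      · rw [mul8 (show (4 - A) % 8 = 3 by omega) h]; norm_num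
      · rw [mul8 (show (4 - A) % 8 = 3 by omega)
          (show (4 - B) % 8 = 3 by omega)]; norm_num
    · refine loc_2 2 1 (by norm_num) 0 0 0 (M1 := d1) (M2 := (1 - A * 2 ^ 2) * d2)
        (M3 := (1 - A * 2 ^ 2) * (1 - B * 2 ^ 2)) (by ring) (by ring) (by ring) hd1 ?_ ?_
      · rw [mul8 (show (1 - A * 2 ^ 2) % 8 = 5 by omega) h]; norm_num
      · rw [mul8 (show (1 - A * 2 ^ 2) % 8 = 5 by omega)
          (show (1 - B * 2 ^ 2) % 8 = 5 by omega)]; norm_num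
    · refine loc_2 1 16 (by norm_num) 2 0 2 (M1 := d1) (M2 := (16 - A) * d2)
        (M3 := (16 - A) * (16 - B)) (by ring) (by ring) (by ring) hd1 ?_ ?_
      · rw [mul8 (show (16 - A) % 8 = 7 by omega) h]; norm_num
      · rw [mul8 (show (16 - A) % 8 = 7 by omega)
          (show (16 - B) % 8 = 7 by omega)]; norm_num

/-- the real point -/
lemma pt_real {A B d1 d2 : ℤ} (hB : 0 < B) (hAB : B < A) (hd1 : 0 < d1) (hd2 : d2 ≠ 0) :
    Loc ℝ A B d1 d2 := by
  have hB' : (0 : ℝ) < B := by exact_mod_cast hB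
  have hAB' : (B : ℝ) < A := by exact_mod_cast hAB
  have hd1' : (0 : ℝ) < d1 := by exact_mod_cast hd1
  have key : ∀ x : ℝ, 0 < x * (x - A) * (x - B) → 0 ≤ x * d1 → 0 ≤ (x - A) * d2 →
      Loc ℝ A B d1 d2 := by
    intro x h1 h2 h3
    refine ⟨x, √(x * (x - A) * (x - B)), (Real.sqrt_pos.2 h1).ne', Real.sq_sqrt h1.le,
      ⟨√(x * d1), (Real.mul_self_sqrt h2).symm⟩, ⟨√((x - A) * d2), (Real.mul_self_sqrt h3).symm⟩⟩
  rcases lt_or_gt_of_ne hd2 with h | h
  · have h' : (d2 : ℝ) < 0 := by exact_mod_cast h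
    refine key (B / 2) ?_ (by positivity) ?_
    · have e1 : (B : ℝ) / 2 - A < 0 := by linarith
      have e2 : (B : ℝ) / 2 - B < 0 := by linarith
      have e3 := mul_pos_of_neg_of_neg e1 e2
      rw [mul_assoc]
      exact mul_pos (by linarith) e3
    · exact (mul_pos_of_neg_of_neg (by linarith) h').le
  · have h' : (0 : ℝ) < d2 := by exact_mod_cast h
    refine key (A + 1) ?_ ?_ ?_
    · refine mul_pos (mul_pos (by linarith) (by linarith)) (by linarith)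
    · exact mul_nonneg (by linarith) hd1'.le
    · exact mul_nonneg (by linarith) h'.le

end Pool.Agent.Y535.RZ
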